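import Mathlib

namespace Pool.Agent.H.MP_c355a0_ag

open MvPolynomial

theorem integral_of_cone {L : Type} [Field L] [Algebra ℂ L] {ι τ : Type} [Fintype ι]
    (y : ι → L) (G : Set (MvPolynomial ι ℂ)) (l : τ → MvPolynomial ι ℂ)
    (hG : ∀ g ∈ G, ∀ c : L, aeval (fun i => c * y i) g = 0)
    (hl : ∀ t, ∀ c : L, aeval (fun i => c * y i) (l t) = c * aeval y (l t))
    (hrad : ∀ i, X i ∈ (Ideal.span (G ∪ Set.range l)).radical) (i0 : ι) :
    IsIntegral (Algebra.adjoin ℂ (Set.range fun t => aeval y (l t))) (y i0) := by
  classical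
  set S := Algebra.adjoin ℂ (Set.range fun t => aeval y (l t)) with hS
  have key : y i0 ∈ (integralClosure (Subring.closure (S : Set L)) L).toSubring := by
    rw [← iInf_valuationSubring_superset]
    rw [Subring.mem_iInf]
    rintro ⟨V, hV⟩
    by_contra hy
    have hy' : y i0 ∉ V := hy
    obtain ⟨a, -, ha⟩ := Finset.exists_max_image Finset.univ (fun i => V.valuation (y i))
      ⟨i0, Finset.mem_univ _⟩
    have h1 : 1 < V.valuation (y a) := by
      have : ¬ V.valuation (y i0) ≤ 1 := fun h => hy' ((V.valuation_le_one_iff _).mp h)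
      exact lt_of_lt_of_le (not_le.mp this) (ha i0 (Finset.mem_univ _))
    have hya : y a ≠ 0 := by
      intro h; rw [h, map_zero] at h1; exact absurd h1 (by simp)
    have hva : V.valuation (y a) ≠ 0 := by simpa using hya
    have hC : ∀ z : ℂ, algebraMap ℂ L z ∈ V := fun z => hV (S.algebraMap_mem z)
    set c := (y a)⁻¹ with hc
    have hcy : ∀ i, V.valuation (c * y i) ≤ 1 := by
      intro i
      rw [map_mul, hc, map_inv₀, inv_mul_le_iff₀ (zero_lt_iff.mpr hva), mul_one]
      exact ha i (Finset.mem_univ _)
    have hall : ∀ p : MvPolynomial ι ℂ, V.valuation (aeval (fun i => c * y i) p) ≤ 1 := by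
      intro p
      rw [V.valuation_le_one_iff]
      induction p using MvPolynomial.induction_on with
      | C z => simpa using hC z
      | add p q hp hq => rw [map_add]; exact V.add_mem _ _ hp hq
      | mul_X p i hp =>
        rw [map_mul, aeval_X]
        exact V.mul_mem _ _ hp ((V.valuation_le_one_iff _).mp (hcy i))
    have hI : ∀ p ∈ Ideal.span (G ∪ Set.range l),
        V.valuation (aeval (fun i => c * y i) p) < 1 := by
      intro p hp
      induction hp using Submodule.span_induction with
      | mem p hp =>
        rcases hp with hp | ⟨t, rfl⟩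
        · rw [hG p hp]; simp
        · rw [hl, map_mul, hc, map_inv₀, inv_mul_lt_iff₀ (zero_lt_iff.mpr hva), mul_one]
          refine lt_of_le_of_lt ?_ h1
          rw [V.valuation_le_one_iff]
          exact hV (Algebra.subset_adjoin ⟨t, rfl⟩)
      | zero => simp
      | add p q _ _ hp hq => rw [map_add]; exact Valuation.map_add_lt _ hp hq
      | smul r p _ hp =>
        rw [smul_eq_mul, map_mul, map_mul]
        exact lt_of_le_of_lt (mul_le_of_le_one_left' (hall r)) hp
    obtain ⟨s, hs⟩ := hrad a
    have := hI _ hs
    rw [map_pow, aeval_X, hc, inv_mul_cancel₀ hya] at this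
    simp at this
  have key2 : IsIntegral (Subring.closure (S : Set L)) (y i0) := key
  have hSS : Subring.closure (S : Set L) = S.toSubring := Subring.closure_eq S.toSubring
  rw [hSS] at key2
  exact key2

theorem card_le_of_integral {L : Type} [Field L] [Algebra ℂ L] {σ τ : Type} [Fintype σ]
    [Fintype τ] (x : σ → L) (hx : AlgebraicIndependent ℂ x) (w : τ → L)
    (h : ∀ s, IsIntegral (Algebra.adjoin ℂ (Set.range w)) (x s)) :
    Fintype.card σ ≤ Fintype.card τ := by
  classical
  have hind : (AlgebraicIndependent.matroid ℂ L).Indep (Set.range x) := by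
    rw [AlgebraicIndependent.matroid_indep_iff]
    exact hx.to_subtype_range
  have hsub : Set.range x ⊆ (AlgebraicIndependent.matroid ℂ L).closure (Set.range w) := by
    rintro _ ⟨s, rfl⟩
    rw [AlgebraicIndependent.matroid_closure_eq, SetLike.mem_coe,
      Subalgebra.mem_algebraicClosure]
    exact (h s).isAlgebraic
  have h1 : (Set.range x).encard ≤ (Set.range w).encard := by
    rw [← hind.eRk_eq_encard]
    refine le_trans (Matroid.eRk_mono _ hsub) ?_
    rw [Matroid.eRk_closure_eq]
    exact Matroid.eRk_le_encard _ _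
  have h2 : (Set.range x).encard = Fintype.card σ := by
    rw [← Set.image_univ, hx.injective.injOn.encard_image, Set.encard_univ]
    simp
  have h3 : (Set.range w).encard ≤ Fintype.card τ := by
    rw [← Set.image_univ]
    refine le_trans (Set.encard_image_le _ _) ?_
    rw [Set.encard_univ]; simp
  have := (h2 ▸ h1).trans h3
  exact_mod_cast this

end Pool.Agent.H.MP_c355a0_ag
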