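import Mathlib
import Pool.Agent.H.MP_c355a0_ag.A

namespace Pool.Agent.H.MP_c355a0_ag

open MvPolynomial Matrix

theorem exists_PQ {K m n : Type} [Field K] [Fintype m] [Fintype n] [DecidableEq m]
    [DecidableEq n] (M : Matrix m n K) (k : ℕ) (hk : k ≤ M.rank) :
    ∃ (P : Matrix (Fin k) m K) (Q : Matrix n (Fin k) K), P * M * Q = 1 := by
  obtain ⟨w, hw⟩ := exists_linearIndependent_of_le_finrank (R := K)
    (M := LinearMap.range M.mulVecLin) hk
  have hq : ∀ i, ∃ q : n → K, M *ᵥ q = (w i : m → K) := fun i => (w i).2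
  choose q hq using hq
  set Q : Matrix n (Fin k) K := Matrix.of fun j i => q i j with hQ
  have hcol : (M * Q).col = fun i => (w i : m → K) := by
    funext i j
    rw [← hq i]
    simp [Matrix.col, Matrix.mul_apply, hQ, Matrix.mulVec, dotProduct]
  have hli : LinearIndependent K (M * Q).col := by
    rw [hcol]
    exact hw.map' (LinearMap.range M.mulVecLin).subtype (Submodule.ker_subtype _)
  have hinj : LinearMap.ker (Matrix.toLin' (M * Q)) = ⊥ := by
    rw [LinearMap.ker_eq_bot]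
    exact Matrix.mulVec_injective_iff.mpr hli
  obtain ⟨g, hg⟩ := LinearMap.exists_leftInverse_of_injective _ hinj
  refine ⟨LinearMap.toMatrix' g, Q, ?_⟩
  rw [Matrix.mul_assoc]
  have := congrArg LinearMap.toMatrix' hg
  rw [LinearMap.toMatrix'_comp, LinearMap.toMatrix'_toLin', LinearMap.toMatrix'_id] at this
  exact this

theorem det_eq_zero_of_factor {K m n ρ : Type} [Field K] [Fintype m] [Fintype n] [Fintype ρ]
    (k : ℕ) (hk : Fintype.card ρ < k) (P : Matrix (Fin k) m K) (B : Matrix m ρ K)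
    (D : Matrix ρ n K) (Q : Matrix n (Fin k) K) : (P * (B * D) * Q).det = 0 := by
  by_contra h
  have hu : IsUnit (P * (B * D) * Q) := by
    rw [Matrix.isUnit_iff_isUnit_det]; exact isUnit_iff_ne_zero.mpr h
  have h1 := Matrix.rank_of_isUnit _ hu
  have h2 : (P * (B * D) * Q).rank ≤ Fintype.card ρ := by
    have : P * (B * D) * Q = (P * B) * (D * Q) := by simp [Matrix.mul_assoc]
    rw [this]
    exact (Matrix.rank_mul_le_left _ _).trans (Matrix.rank_le_card_width _)
  rw [h1, Fintype.card_fin] at h2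
  omega

noncomputable def detPYQ {m n : Type} [Fintype m] [Fintype n]
    {k : ℕ} (P : Matrix (Fin k) m ℂ) (Q : Matrix n (Fin k) ℂ) : MvPolynomial (m × n) ℂ :=
  Matrix.det ((P.map (algebraMap ℂ (MvPolynomial (m × n) ℂ)) *
    (Matrix.of fun i j => (X (i, j) : MvPolynomial (m × n) ℂ)) *
      Q.map (algebraMap ℂ (MvPolynomial (m × n) ℂ)) : Matrix (Fin k) (Fin k) _))

theorem aeval_det_PYQ {L m n : Type} [CommRing L] [Algebra ℂ L] [Fintype m] [Fintype n]
    (k : ℕ) (P : Matrix (Fin k) m ℂ) (Q : Matrix n (Fin k) ℂ) (v : m × n → L) :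
    aeval v (detPYQ P Q) =
      (P.map (algebraMap ℂ L) * (Matrix.of fun i j => v (i, j)) * Q.map (algebraMap ℂ L)).det := by
  rw [detPYQ, AlgHom.map_det]
  congr 1
  ext i j
  simp [Matrix.mul_apply]

theorem generic_lowrank (ρ α β : Type) [Fintype ρ] [Fintype α] [Fintype β] [DecidableEq ρ] :
    ∃ (L : Type) (_ : Field L) (_ : Algebra ℂ L) (B : Matrix (ρ ⊕ α) ρ L)
      (D : Matrix ρ (ρ ⊕ β) L) (x : (ρ × ρ) ⊕ (ρ × β) ⊕ (α × ρ) → L),
      AlgebraicIndependent ℂ x ∧ ∀ s, ∃ i j, x s = (B * D) i j := by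
  let σ := (ρ × ρ) ⊕ (ρ × β) ⊕ (α × ρ)
  let R := MvPolynomial σ ℂ
  let L := FractionRing R
  let x : σ → L := fun s => algebraMap R L (X s)
  have hx : AlgebraicIndependent ℂ x :=
    (MvPolynomial.algebraicIndependent_X σ ℂ).map' (f := IsScalarTower.toAlgHom ℂ R L)
      (IsFractionRing.injective R L)
  let A0 : Matrix ρ ρ R := Matrix.of fun i j => X (Sum.inl (i, j))
  let A : Matrix ρ ρ L := Matrix.of fun i j => x (Sum.inl (i, j))
  let B : Matrix ρ β L := Matrix.of fun i j => x (Sum.inr (Sum.inl (i, j)))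
  let D : Matrix α ρ L := Matrix.of fun i j => x (Sum.inr (Sum.inr (i, j)))
  have hA0 : A0.det ≠ 0 := by
    intro h
    let v : σ → ℂ := fun s => match s with
      | Sum.inl ij => if ij.1 = ij.2 then 1 else 0
      | Sum.inr _ => 0
    have h1 := congrArg (aeval v) h
    rw [AlgHom.map_det, map_zero] at h1
    have h2 : (aeval v : R →ₐ[ℂ] ℂ).mapMatrix A0 = 1 := by
      ext i j
      simp [A0, v, Matrix.one_apply]
    rw [h2, Matrix.det_one] at h1
    exact one_ne_zero h1
  have hA : IsUnit A.det := by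
    have : A.det = algebraMap R L A0.det := by
      rw [RingHom.map_det]; rfl
    rw [this, isUnit_iff_ne_zero]
    exact fun h => hA0 (IsFractionRing.injective R L (by rw [h, map_zero]))
  refine ⟨L, inferInstance, inferInstance, Matrix.fromRows 1 (D * A⁻¹), Matrix.fromCols A B,
    x, hx, ?_⟩
  rw [Matrix.fromRows_mul_fromCols, Matrix.one_mul, Matrix.one_mul, Matrix.mul_assoc D,
    Matrix.nonsing_inv_mul _ hA, Matrix.mul_one]
  rintro (⟨i, j⟩ | ⟨i, j⟩ | ⟨i, j⟩)
  · exact ⟨Sum.inl i, Sum.inl j, rfl⟩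
  · exact ⟨Sum.inl i, Sum.inr j, rfl⟩
  · exact ⟨Sum.inr i, Sum.inl j, rfl⟩

theorem exists_low_rank {ρ α β E : Type} [Fintype ρ] [Fintype α] [Fintype β] [DecidableEq ρ]
    [DecidableEq α] [DecidableEq β] [AddCommGroup E] [Module ℂ E] [FiniteDimensional ℂ E]
    (J : E →ₗ[ℂ] Matrix (ρ ⊕ α) (ρ ⊕ β) ℂ)
    (h : Fintype.card α * Fintype.card β < Module.finrank ℂ E) :
    ∃ x, x ≠ 0 ∧ (J x).rank ≤ Fintype.card ρ := by
  classical
  by_contra hcon
  push Not at hcon
  have hinj : LinearMap.ker J = ⊥ := by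
    rw [LinearMap.ker_eq_bot']
    intro x hx
    by_contra hx0
    have := hcon x hx0
    rw [hx, Matrix.rank_zero] at this
    omega
  set c := Module.finrank ℂ (Matrix (ρ ⊕ α) (ρ ⊕ β) ℂ ⧸ LinearMap.range J) with hc
  have hdim : c + Module.finrank ℂ E =
      (Fintype.card ρ + Fintype.card α) * (Fintype.card ρ + Fintype.card β) := by
    rw [← LinearMap.finrank_range_of_inj (LinearMap.ker_eq_bot.mp hinj), hc,
      Submodule.finrank_quotient_add_finrank, Module.finrank_matrix]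
    simp
  let b := Module.finBasis ℂ (Matrix (ρ ⊕ α) (ρ ⊕ β) ℂ ⧸ LinearMap.range J)
  let ℓ : Matrix (ρ ⊕ α) (ρ ⊕ β) ℂ →ₗ[ℂ] (Fin c → ℂ) :=
    b.equivFun.toLinearMap ∘ₗ (LinearMap.range J).mkQ
  have hℓ : ∀ M, ℓ M = 0 → M ∈ LinearMap.range J := by
    intro M hM
    have : (LinearMap.range J).mkQ M = 0 := b.equivFun.injective (by rw [map_zero]; exact hM)
    exact (Submodule.Quotient.mk_eq_zero _).mp this
  let l : Fin c → MvPolynomial ((ρ ⊕ α) × (ρ ⊕ β)) ℂ := fun t =>
    ∑ ij : (ρ ⊕ α) × (ρ ⊕ β), C (ℓ (Matrix.single ij.1 ij.2 1) t) * X ij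
  let G : Set (MvPolynomial ((ρ ⊕ α) × (ρ ⊕ β)) ℂ) := {g | ∃
    (P : Matrix (Fin (Fintype.card ρ + 1)) (ρ ⊕ α) ℂ)
    (Q : Matrix (ρ ⊕ β) (Fin (Fintype.card ρ + 1)) ℂ),
    g = detPYQ P Q}
  have hrad : ∀ ij, X ij ∈ (Ideal.span (G ∪ Set.range l)).radical := by
    intro ij
    rw [← vanishingIdeal_zeroLocus_eq_radical (K := ℂ), mem_vanishingIdeal_iff]
    intro v hv
    rw [mem_zeroLocus_iff] at hv
    set M : Matrix (ρ ⊕ α) (ρ ⊕ β) ℂ := Matrix.of fun i j => v (i, j) with hM
    have h1 : ℓ M = 0 := by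
      funext t
      have h2 := hv (l t) (Ideal.subset_span (Or.inr ⟨t, rfl⟩))
      rw [Pi.zero_apply, ← h2]
      conv_lhs => rw [Matrix.matrix_eq_sum_single M]
      simp only [l, map_sum, Finset.sum_apply, map_mul, aeval_C, aeval_X]
      rw [Fintype.sum_prod_type]
      refine Finset.sum_congr rfl fun i _ => Finset.sum_congr rfl fun j _ => ?_
      have : Matrix.single i j (M i j) = M i j • Matrix.single i j (1 : ℂ) := by
        rw [Matrix.smul_single, smul_eq_mul, mul_one]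
      rw [this, map_smul]
      simp [hM, mul_comm]
    obtain ⟨x, hx⟩ := hℓ M h1
    by_cases hx0 : x = 0
    · rw [hx0, map_zero] at hx
      have := congrFun (congrFun hx ij.1) ij.2
      simpa [hM] using this.symm
    · exfalso
      have h3 := hcon x hx0
      rw [hx] at h3
      obtain ⟨P, Q, hPQ⟩ := exists_PQ M (Fintype.card ρ + 1) h3
      have h4 := hv _ (Ideal.subset_span (Or.inl ⟨P, Q, rfl⟩))
      rw [aeval_det_PYQ] at h4
      have e1 : P.map (algebraMap ℂ ℂ) = P := by ext; simp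
      have e2 : Q.map (algebraMap ℂ ℂ) = Q := by ext; simp
      rw [e1, e2, ← hM, hPQ, Matrix.det_one] at h4
      exact one_ne_zero h4
  obtain ⟨L, _, _, B, D, x, hx, hxy⟩ := generic_lowrank ρ α β
  let y : (ρ ⊕ α) × (ρ ⊕ β) → L := fun ij => (B * D) ij.1 ij.2
  have hint := integral_of_cone y G l (by
      rintro g ⟨P, Q, rfl⟩ a
      rw [aeval_det_PYQ]
      have : (Matrix.of fun i j => a * y (i, j)) = (a • B) * D := by
        rw [Matrix.smul_mul]; ext i j; simp [y]
      rw [this]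
      exact det_eq_zero_of_factor _ (Nat.lt_succ_self _) _ _ _ _) (by
      intro t a
      simp only [l, map_sum, map_mul, aeval_C, aeval_X, Finset.mul_sum]
      exact Finset.sum_congr rfl fun ij _ => by ring) hrad
  have hle := card_le_of_integral x hx (fun t => aeval y (l t)) (by
    intro s
    obtain ⟨i, j, hs⟩ := hxy s
    rw [hs]
    exact hint (i, j))
  simp only [Fintype.card_sum, Fintype.card_prod, Fintype.card_fin] at hle
  nlinarith

end Pool.Agent.H.MP_c355a0_ag
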