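import Mathlib

namespace Pool.Agent.H.MP_c355a0_ag

open MvPolynomial Pointwise

section
variable {A : Type} [CommRing A] [Algebra ℂ A] {σ τ γ ι : Type} [Fintype σ] [Fintype τ]
  [Fintype γ] [Fintype ι]

def Qd (a : σ → σ → ℂ) (v : σ → A) : A := ∑ r, ∑ s, a r s • (v r * v s)

theorem smul_mem_ideal (m : Ideal A) (c : ℂ) {p : A} (hp : p ∈ m) : c • p ∈ m := by
  rw [Algebra.smul_def]; exact m.mul_mem_left _ hp

theorem mul_mem_pow_add (m : Ideal A) {i j : ℕ} {p q : A} (hp : p ∈ m ^ i) (hq : q ∈ m ^ j) :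
    p * q ∈ m ^ (i + j) := by
  rw [pow_add]; exact Ideal.mul_mem_mul hp hq

theorem Qd_mem (m : Ideal A) (a : σ → σ → ℂ) {v : σ → A} (hv : ∀ r, v r ∈ m ^ 1) :
    Qd a v ∈ m ^ 2 :=
  Ideal.sum_mem _ fun r _ => Ideal.sum_mem _ fun s _ =>
    smul_mem_ideal _ _ (mul_mem_pow_add m (hv r) (hv s))

theorem Qd_sub_mem (m : Ideal A) (a : σ → σ → ℂ) {u w : σ → A} {j : ℕ} (hu : ∀ r, u r ∈ m ^ 1)
    (hw : ∀ r, w r ∈ m ^ 1) (huw : ∀ r, u r - w r ∈ m ^ j) : Qd a u - Qd a w ∈ m ^ (j + 1) := by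
  unfold Qd
  rw [← Finset.sum_sub_distrib]
  refine Ideal.sum_mem _ fun r _ => ?_
  rw [← Finset.sum_sub_distrib]
  refine Ideal.sum_mem _ fun s _ => ?_
  rw [← smul_sub]
  refine smul_mem_ideal _ _ ?_
  have : u r * u s - w r * w s = (u r - w r) * u s + (u s - w s) * w r := by ring
  rw [this]
  exact Ideal.add_mem _ (mul_mem_pow_add m (huw r) (hu s)) (mul_mem_pow_add m (huw s) (hw r))

theorem Qd_shift (a : σ → σ → ℂ) (x : σ → ℂ) (v : σ → A) :
    Qd a (fun r => algebraMap ℂ A (x r) + v r) =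
      algebraMap ℂ A (Qd a x) + ∑ r, (∑ s, (a r s + a s r) * x s) • v r + Qd a v := by
  have h1 : ∑ r, (∑ s, (a r s + a s r) * x s) • v r =
      ∑ r, ∑ s, a r s • (v r * algebraMap ℂ A (x s)) +
        ∑ r, ∑ s, a r s • (algebraMap ℂ A (x r) * v s) := by
    rw [Finset.sum_comm (f := fun r s => a r s • (algebraMap ℂ A (x r) * v s)),
      ← Finset.sum_add_distrib]
    refine Finset.sum_congr rfl fun r _ => ?_
    rw [Finset.sum_smul, ← Finset.sum_add_distrib]
    refine Finset.sum_congr rfl fun s _ => ?_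
    simp only [Algebra.smul_def, map_mul, map_add]
    ring
  rw [h1]
  unfold Qd
  simp only [map_sum, ← Finset.sum_add_distrib]
  refine Finset.sum_congr rfl fun r _ => Finset.sum_congr rfl fun s _ => ?_
  rw [smul_eq_mul]
  simp only [Algebra.smul_def, map_mul]
  ring

theorem exists_local [DecidableEq τ] (m : Ideal A) (z : ι → A) (hz : ∀ l, z l ∈ m)
    (a : τ → σ → σ → ℂ) (x : σ → ℂ) (κ : ι → σ → ℂ) (J : Matrix τ σ ℂ)
    (hJ : ∀ j r, J j r = ∑ s, (a j r s + a j s r) * x s)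
    (hκ : ∀ l j, ∑ r, J j r * κ l r = 0)
    (G : Matrix σ τ ℂ) (E : Matrix τ γ ℂ) (H : Matrix γ τ ℂ) (hG : J * G + E * H = 1) :
    ∃ (v : σ → A) (h : γ → A), (∀ r, v r - ∑ l, κ l r • z l ∈ m ^ 2) ∧ (∀ i, h i ∈ m ^ 2) ∧
      ∀ j, Qd (a j) (fun r => algebraMap ℂ A (x r) + v r) -
        algebraMap ℂ A (Qd (a j) x) - ∑ i, E j i • h i ∈ m ^ 4 := by
  set v1 : σ → A := fun r => ∑ l, κ l r • z l with hv1
  set v2 : σ → A := fun r => v1 r - ∑ j, G r j • Qd (a j) v1 with hv2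
  set v3 : σ → A := fun r => v1 r - ∑ j, G r j • Qd (a j) v2 with hv3
  have m1 : ∀ r, v1 r ∈ m ^ 1 := fun r =>
    Ideal.sum_mem _ fun l _ => smul_mem_ideal _ _ (by simpa using hz l)
  have hle : m ^ 2 ≤ m ^ 1 := Ideal.pow_le_pow_right (by norm_num)
  have q1 : ∀ r, ∑ j, G r j • Qd (a j) v1 ∈ m ^ 2 := fun r =>
    Ideal.sum_mem _ fun j _ => smul_mem_ideal _ _ (Qd_mem m _ m1)
  have m2 : ∀ r, v2 r ∈ m ^ 1 := fun r => Ideal.sub_mem _ (m1 r) (hle (q1 r))
  have q2 : ∀ r, ∑ j, G r j • Qd (a j) v2 ∈ m ^ 2 := fun r =>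
    Ideal.sum_mem _ fun j _ => smul_mem_ideal _ _ (Qd_mem m _ m2)
  have m3 : ∀ r, v3 r ∈ m ^ 1 := fun r => Ideal.sub_mem _ (m1 r) (hle (q2 r))
  have d12 : ∀ r, v1 r - v2 r ∈ m ^ 2 := fun r => by
    simp only [hv2, sub_sub_cancel]; exact q1 r
  have d32 : ∀ r, v3 r - v2 r ∈ m ^ 3 := fun r => by
    have : v3 r - v2 r = ∑ j, G r j • (Qd (a j) v1 - Qd (a j) v2) := by
      simp only [hv3, hv2, smul_sub, Finset.sum_sub_distrib]; ring
    rw [this]
    exact Ideal.sum_mem _ fun j _ => smul_mem_ideal _ _ (Qd_sub_mem m _ m1 m2 d12)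
  refine ⟨v3, fun i => ∑ j, H i j • Qd (a j) v2, fun r => ?_, fun i => ?_, fun j => ?_⟩
  · have : v3 r - ∑ l, κ l r • z l = -∑ j, G r j • Qd (a j) v2 := by
      simp only [hv3, hv1]; ring
    rw [this]; exact neg_mem (q2 r)
  · exact Ideal.sum_mem _ fun j _ => smul_mem_ideal _ _ (Qd_mem m _ m2)
  · rw [Qd_shift]
    have e1 : ∑ r, (∑ s, (a j r s + a j s r) * x s) • v1 r = 0 := by
      simp only [← hJ, hv1, Finset.smul_sum, smul_smul]
      rw [Finset.sum_comm]
      refine Finset.sum_eq_zero fun l _ => ?_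
      rw [← Finset.sum_smul, hκ, zero_smul]
    have e2 : ∑ r, J j r • ∑ j', G r j' • Qd (a j') v2 + ∑ i, E j i • ∑ j', H i j' • Qd (a j') v2 =
        Qd (a j) v2 := by
      simp only [Finset.smul_sum, smul_smul]
      rw [Finset.sum_comm, Finset.sum_comm (f := fun i j' => (E j i * H i j') • Qd (a j') v2),
        ← Finset.sum_add_distrib]
      have : ∀ j', ∑ r, (J j r * G r j') • Qd (a j') v2 + ∑ i, (E j i * H i j') • Qd (a j') v2 =
          (if j = j' then (1 : ℂ) else 0) • Qd (a j') v2 := by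
        intro j'
        rw [← Finset.sum_smul, ← Finset.sum_smul, ← add_smul]
        congr 1
        have := congrFun (congrFun hG j) j'
        simpa [Matrix.mul_apply, Matrix.one_apply] using this
      simp only [this]
      simp
    have e3 : ∑ r, (∑ s, (a j r s + a j s r) * x s) • v3 r =
        -∑ r, J j r • ∑ j', G r j' • Qd (a j') v2 := by
      simp only [hv3, smul_sub, Finset.sum_sub_distrib]
      rw [e1]
      simp only [← hJ, zero_sub]
    rw [e3]
    have : algebraMap ℂ A (Qd (a j) x) + -∑ r, J j r • ∑ j', G r j' • Qd (a j') v2 +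
        Qd (a j) v3 - algebraMap ℂ A (Qd (a j) x) - ∑ i, E j i • ∑ j', H i j' • Qd (a j') v2 =
        Qd (a j) v3 - Qd (a j) v2 := by
      rw [← e2]; ring
    rw [this]
    exact Qd_sub_mem m _ m3 m2 d32

def Zalg (m : Ideal A) (h : γ → A) (hh : ∀ i, h i ∈ m ^ 2) : Subalgebra ℂ A where
  carrier := {p | ∃ a : ℂ, ∃ u ∈ Submodule.span ℂ (Set.range h), p - algebraMap ℂ A a - u ∈ m ^ 4}
  mul_mem' := by
    have hsp : ∀ u ∈ Submodule.span ℂ (Set.range h), u ∈ m ^ 2 := by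
      intro u hu
      obtain ⟨b, rfl⟩ := (Submodule.mem_span_range_iff_exists_fun ℂ).mp hu
      exact Ideal.sum_mem _ fun i _ => smul_mem_ideal _ _ (hh i)
    rintro p p' ⟨a, u, hu, hw⟩ ⟨a', u', hu', hw'⟩
    refine ⟨a * a', a • u' + a' • u,
      Submodule.add_mem _ (Submodule.smul_mem _ _ hu') (Submodule.smul_mem _ _ hu), ?_⟩
    have : p * p' - algebraMap ℂ A (a * a') - (a • u' + a' • u) =
        u * u' + p' * (p - algebraMap ℂ A a - u) +
          (algebraMap ℂ A a + u) * (p' - algebraMap ℂ A a' - u') := by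
      simp only [Algebra.smul_def, map_mul]; ring
    rw [this]
    exact Ideal.add_mem _ (Ideal.add_mem _ (mul_mem_pow_add m (hsp u hu) (hsp u' hu'))
      (Ideal.mul_mem_left _ _ hw)) (Ideal.mul_mem_left _ _ hw')
  add_mem' := by
    rintro p p' ⟨a, u, hu, hw⟩ ⟨a', u', hu', hw'⟩
    refine ⟨a + a', u + u', Submodule.add_mem _ hu hu', ?_⟩
    have : p + p' - algebraMap ℂ A (a + a') - (u + u') =
        (p - algebraMap ℂ A a - u) + (p' - algebraMap ℂ A a' - u') := by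
      rw [map_add]; ring
    rw [this]
    exact Ideal.add_mem _ hw hw'
  algebraMap_mem' := fun a => ⟨a, 0, Submodule.zero_mem _, by simp⟩

theorem mul_mem_Y (m : Ideal A) (z : ι → A) (h : γ → A) (hh : ∀ i, h i ∈ m ^ 2)
    (Y : Submodule ℂ A) (Y4 : ∀ p ∈ m ^ 4, p ∈ Y) (Yh : ∀ i, h i ∈ Y)
    (Yzh : ∀ l i, z l * h i ∈ Y) (y : A) (Yy : y ∈ Y) (c : ℂ) (κ : ι → ℂ)
    (hy : y - algebraMap ℂ A c - ∑ l, κ l • z l ∈ m ^ 2) {p : A} (hp : p ∈ Zalg m h hh) :
    y * p ∈ Y := by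
  obtain ⟨a, u, hu, hw⟩ := hp
  obtain ⟨b, rfl⟩ := (Submodule.mem_span_range_iff_exists_fun ℂ).mp hu
  have : y * p = a • y + ∑ i, b i • (y * h i) +
      y * (p - algebraMap ℂ A a - ∑ i, b i • h i) := by
    have : ∑ i, b i • (y * h i) = y * ∑ i, b i • h i := by
      rw [Finset.mul_sum]; simp
    rw [this, Algebra.smul_def]; ring
  rw [this]
  refine Y.add_mem (Y.add_mem (Y.smul_mem _ Yy) (Y.sum_mem fun i _ => Y.smul_mem _ ?_))
    (Y4 _ (Ideal.mul_mem_left _ _ hw))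
  have : y * h i = c • h i + ∑ l, κ l • (z l * h i) +
      (y - algebraMap ℂ A c - ∑ l, κ l • z l) * h i := by
    have : ∑ l, κ l • (z l * h i) = (∑ l, κ l • z l) * h i := by
      rw [Finset.sum_mul]; simp
    rw [this, Algebra.smul_def]; ring
  rw [this]
  exact Y.add_mem (Y.add_mem (Y.smul_mem _ (Yh i)) (Y.sum_mem fun l _ => Y.smul_mem _ (Yzh l i)))
    (Y4 _ (mul_mem_pow_add m hy (hh i)))

theorem comp_mul_homog {σ : Type} (s w : MvPolynomial σ ℂ) {i j : ℕ} (hw : w.IsHomogeneous j) :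
    homogeneousComponent (i + j) (s * w) = homogeneousComponent i s * w := by
  classical
  letI := MvPolynomial.gradedAlgebra (σ := σ) (R := ℂ)
  have := DirectSum.coe_decompose_mul_add_of_right_mem (homogeneousSubmodule σ ℂ)
    (i := i) (j := j) (a := s) (b := w) hw
  rw [← decomposition.decompose'_apply, ← decomposition.decompose'_apply]
  exact this

theorem image_mem_Y {σ τ : Type} (f : τ → MvPolynomial σ ℂ) (d k : ℕ)
    (hf : ∀ j, (f j).IsHomogeneous d) (Θ : MvPolynomial σ ℂ →ₐ[ℂ] A) (Z : Subalgebra ℂ A)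
    (hZ : ∀ j, Θ (f j) ∈ Z) (Y : Submodule ℂ A) (hY : ∀ r, ∀ p ∈ Z, Θ (X r) * p ∈ Y)
    (g : MvPolynomial σ ℂ) (hg : g.IsHomogeneous (d * k + 1))
    (hgI : g ∈ Ideal.span (Set.range f) ^ k) : Θ g ∈ Y := by
  have h1 : ∀ k : ℕ, ∀ w ∈ (Set.range f) ^ k, w.IsHomogeneous (d * k) ∧ Θ w ∈ Z := by
    intro k
    induction k with
    | zero =>
      intro w hw
      rw [pow_zero, Set.mem_one] at hw
      subst hw
      exact ⟨by simpa using isHomogeneous_one σ ℂ, by simpa using Z.one_mem⟩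
    | succ k ih =>
      intro w hw
      rw [pow_succ, Set.mem_mul] at hw
      obtain ⟨u, hu, _, ⟨j, rfl⟩, rfl⟩ := hw
      refine ⟨?_, ?_⟩
      · rw [Nat.mul_succ]; exact (ih u hu).1.mul (hf j)
      · rw [map_mul]; exact Z.mul_mem (ih u hu).2 (hZ j)
  rw [Ideal.span, Submodule.span_pow] at hgI
  have h2 : ∀ s, Θ (homogeneousComponent (1 + d * k) (s * g)) ∈ Y := by
    clear hg
    induction hgI using Submodule.span_induction with
    | mem w hw =>
      intro s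
      rw [comp_mul_homog s w (h1 k w hw).1, map_mul]
      have h3 := homogeneousComponent_mem 1 s
      rw [homogeneousSubmodule_one_eq_span_X] at h3
      generalize homogeneousComponent 1 s = t at h3
      induction h3 using Submodule.span_induction with
      | mem t ht => obtain ⟨r, rfl⟩ := ht; exact hY r _ (h1 k w hw).2
      | zero => simp
      | add t t' _ _ ht ht' => rw [map_add, add_mul]; exact Y.add_mem ht ht'
      | smul c t _ ht => rw [map_smul, smul_mul_assoc]; exact Y.smul_mem _ ht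
    | zero => intro s; simp
    | add p p' _ _ hp hp' =>
      intro s; rw [mul_add, map_add, map_add]; exact Y.add_mem (hp s) (hp' s)
    | smul c p _ hp =>
      intro s; rw [smul_eq_mul, ← mul_assoc]; exact hp _
  have h3 := h2 1
  rw [one_mul, homogeneousComponent_of_mem (n := d * k + 1) hg, if_pos (add_comm _ _)] at h3
  exact h3

theorem prod_congr_mod (m : Ideal A) (p z : ι → A) (hz : ∀ l, z l ∈ m)
    (hp : ∀ l, p l - z l ∈ m ^ 2) (S : Finset ι) :
    ∏ l ∈ S, z l ∈ m ^ S.card ∧ ∏ l ∈ S, p l - ∏ l ∈ S, z l ∈ m ^ (S.card + 1) := by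
  classical
  induction S using Finset.induction_on with
  | empty => simp
  | insert l S hl ih =>
    rw [Finset.prod_insert hl, Finset.prod_insert hl, Finset.card_insert_of_notMem hl]
    have hz1 : z l ∈ m ^ 1 := by simpa using hz l
    have hp1 : p l ∈ m ^ 1 := by
      have : p l = (p l - z l) + z l := by ring
      rw [this]
      exact Ideal.add_mem _ (Ideal.pow_le_pow_right (by norm_num) (hp l)) hz1
    refine ⟨?_, ?_⟩
    · rw [mul_comm]; exact mul_mem_pow_add m ih.1 hz1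
    · have : p l * ∏ l ∈ S, p l - z l * ∏ l ∈ S, z l =
          (∏ l ∈ S, p l - ∏ l ∈ S, z l) * p l + (∏ l ∈ S, z l) * (p l - z l) := by ring
      rw [this]
      exact Ideal.add_mem _ (mul_mem_pow_add m ih.2 hp1) (mul_mem_pow_add (j := 2) m ih.1 (hp l))

end

end Pool.Agent.H.MP_c355a0_ag
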