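import Mathlib
import Pool.Agent.H.MP_c355a0_ag.B
import Pool.Agent.H.MP_c355a0_ag.C

namespace Pool.Agent.H.MP_c355a0_ag

open MvPolynomial

theorem exists_GEH {σ τ : Type} [Fintype σ] [Fintype τ] [DecidableEq σ] [DecidableEq τ]
    (J : Matrix τ σ ℂ) : ∃ (c : ℕ) (G : Matrix σ τ ℂ) (E : Matrix τ (Fin c) ℂ)
      (H : Matrix (Fin c) τ ℂ), c + J.rank = Fintype.card τ ∧ J * G + E * H = 1 := by
  set φ := Matrix.toLin' J with hφ
  set c := Module.finrank ℂ ((τ → ℂ) ⧸ LinearMap.range φ) with hc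
  let b := Module.finBasis ℂ ((τ → ℂ) ⧸ LinearMap.range φ)
  let p : (τ → ℂ) →ₗ[ℂ] (Fin c → ℂ) := b.equivFun.toLinearMap ∘ₗ (LinearMap.range φ).mkQ
  have hp : LinearMap.range p = ⊤ := by
    rw [LinearMap.range_eq_top]
    exact b.equivFun.surjective.comp (Submodule.mkQ_surjective _)
  obtain ⟨e, he⟩ := p.exists_rightInverse_of_surjective hp
  have hmem : ∀ w, (LinearMap.id - e ∘ₗ p : (τ → ℂ) →ₗ[ℂ] (τ → ℂ)) w ∈ LinearMap.range φ := by
    intro w
    have h1 : p (w - e (p w)) = 0 := by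
      have := LinearMap.congr_fun he (p w)
      rw [map_sub]
      simp only [LinearMap.comp_apply, LinearMap.id_apply] at this
      rw [this, sub_self]
    have h2 : (LinearMap.range φ).mkQ (w - e (p w)) = 0 :=
      b.equivFun.injective (by rw [map_zero]; exact h1)
    exact (Submodule.Quotient.mk_eq_zero _).mp h2
  obtain ⟨s, hs⟩ := φ.rangeRestrict.exists_rightInverse_of_surjective φ.range_rangeRestrict
  let g : (τ → ℂ) →ₗ[ℂ] (σ → ℂ) := s ∘ₗ LinearMap.codRestrict _ _ hmem
  have hg : φ ∘ₗ g + e ∘ₗ p = LinearMap.id := by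
    refine LinearMap.ext fun w => ?_
    have := congrArg Subtype.val (LinearMap.congr_fun hs (LinearMap.codRestrict _ _ hmem w))
    simp only [LinearMap.comp_apply, LinearMap.id_apply, LinearMap.codRestrict_apply,
      LinearMap.rangeRestrict, LinearMap.sub_apply] at this
    simp only [LinearMap.add_apply, LinearMap.comp_apply, g, LinearMap.id_apply]
    rw [this, sub_add_cancel]
  refine ⟨c, LinearMap.toMatrix' g, LinearMap.toMatrix' e, LinearMap.toMatrix' p, ?_, ?_⟩
  · have := Submodule.finrank_quotient_add_finrank (LinearMap.range φ)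
    rw [Module.finrank_fintype_fun_eq_card] at this
    exact this
  · have := congrArg LinearMap.toMatrix' hg
    rw [map_add, LinearMap.toMatrix'_comp, LinearMap.toMatrix'_comp, hφ,
      LinearMap.toMatrix'_toLin', LinearMap.toMatrix'_id] at this
    exact this

theorem exists_left_inv {σ ι : Type} [Fintype σ] [Fintype ι] [DecidableEq σ] [DecidableEq ι]
    (w : ι → σ → ℂ) (hw : LinearIndependent ℂ w) :
    ∃ P : Matrix ι σ ℂ, ∀ o o', ∑ r, P o r * w o' r = if o = o' then 1 else 0 := by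
  set W : Matrix σ ι ℂ := Matrix.of fun r o => w o r with hW
  have hli : LinearIndependent ℂ W.col := hw
  have hinj : LinearMap.ker (Matrix.toLin' W) = ⊥ := by
    rw [LinearMap.ker_eq_bot]
    exact Matrix.mulVec_injective_iff.mpr hli
  obtain ⟨g, hg⟩ := LinearMap.exists_leftInverse_of_injective _ hinj
  refine ⟨LinearMap.toMatrix' g, fun o o' => ?_⟩
  have := congrArg LinearMap.toMatrix' hg
  rw [LinearMap.toMatrix'_comp, LinearMap.toMatrix'_toLin', LinearMap.toMatrix'_id] at this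
  have := congrFun (congrFun this o) o'
  simpa [Matrix.mul_apply, Matrix.one_apply, hW] using this

noncomputable def ex {ι : Type} (S : Finset ι) : ι →₀ ℕ := ∑ l ∈ S, Finsupp.single l 1

theorem ex_inj {ι : Type} {S T : Finset ι} (h : ex S = ex T) : S = T := by
  classical
  have : ∀ (S : Finset ι) l, ex S l = if l ∈ S then 1 else 0 := by
    intro S l
    simp [ex, Finsupp.finset_sum_apply, Finsupp.single_apply]
  ext l
  have h1 := this S l
  rw [h, this T l] at h1
  by_cases a : l ∈ S <;> by_cases b : l ∈ T <;> simp_all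

theorem degree_ex {ι : Type} (S : Finset ι) : Finsupp.degree (ex S) = S.card := by
  simp [ex, map_sum]

theorem lin_isHomog {σ : Type} [Fintype σ] (p : σ → ℂ) :
    (∑ r, p r • (X r : MvPolynomial σ ℂ)).IsHomogeneous 1 :=
  (homogeneousSubmodule σ ℂ 1).sum_mem fun r _ =>
    (homogeneousSubmodule σ ℂ 1).smul_mem _ (isHomogeneous_X ℂ r)

theorem Qd_isHomog {σ : Type} [Fintype σ] (a : σ → σ → ℂ) :
    (Qd a (X : σ → MvPolynomial σ ℂ)).IsHomogeneous 2 :=
  (homogeneousSubmodule σ ℂ 2).sum_mem fun r _ => (homogeneousSubmodule σ ℂ 2).sum_mem fun s _ =>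
    (homogeneousSubmodule σ ℂ 2).smul_mem _ ((isHomogeneous_X ℂ r).mul (isHomogeneous_X ℂ s))

theorem aeval_Qd {σ A : Type} [Fintype σ] [CommRing A] [Algebra ℂ A] (a : σ → σ → ℂ)
    (v : σ → A) : aeval v (Qd a (X : σ → MvPolynomial σ ℂ)) = Qd a v := by
  simp [Qd, map_sum]

theorem main_core {σ τ γ ι : Type} [Fintype σ] [Fintype τ] [Fintype γ] [Fintype ι]
    [DecidableEq σ] [DecidableEq τ] [DecidableEq ι]
    (a : τ → σ → σ → ℂ) (x : σ → ℂ) (κ : ι → σ → ℂ) (J : Matrix τ σ ℂ)
    (hJ : ∀ j r, J j r = ∑ s, (a j r s + a j s r) * x s)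
    (hκ : ∀ l j, ∑ r, J j r * κ l r = 0)
    (G : Matrix σ τ ℂ) (E : Matrix τ γ ℂ) (H : Matrix γ τ ℂ) (hG : J * G + E * H = 1)
    (hli : LinearIndependent ℂ (fun o => Option.casesOn' o x κ : Option ι → σ → ℂ))
    (hcard : Fintype.card σ + (Fintype.card γ + Fintype.card ι * Fintype.card γ) <
      (Fintype.card ι).choose 3) (k : ℕ) (hk : 1 ≤ k) :
    ∃ g : MvPolynomial σ ℂ, g.IsHomogeneous (2 * k + 1) ∧
      g ∉ Ideal.span (Set.range fun j => Qd (a j) (X : σ → MvPolynomial σ ℂ)) ^ k := by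
  classical
  by_contra hcon
  push Not at hcon
  set m := idealOfVars ι ℂ with hm
  have hz : ∀ l, (X l : MvPolynomial ι ℂ) ∈ m := fun l => Ideal.subset_span ⟨l, rfl⟩
  obtain ⟨v, h, hv, hh, hQ⟩ := exists_local m X hz a x κ J hJ hκ G E H hG
  obtain ⟨P, hP⟩ := exists_left_inv _ hli
  set Θ : MvPolynomial σ ℂ →ₐ[ℂ] MvPolynomial ι ℂ :=
    aeval (fun r => algebraMap ℂ (MvPolynomial ι ℂ) (x r) + v r) with hΘ
  let T := {S : Finset ι // S.card = 3}
  let π : MvPolynomial ι ℂ →ₗ[ℂ] (T → ℂ) := LinearMap.pi fun S => lcoeff ℂ (ex S.1)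
  have hπ : ∀ p ∈ m ^ 4, π p = 0 := by
    intro p hp
    funext S
    rw [hm, mem_pow_idealOfVars_iff'] at hp
    exact hp (ex S.1) (by rw [degree_ex, S.2]; norm_num)
  let gens : σ ⊕ γ ⊕ (ι × γ) → MvPolynomial ι ℂ := fun o => match o with
    | Sum.inl r => Θ (X r)
    | Sum.inr (Sum.inl i) => h i
    | Sum.inr (Sum.inr li) => X li.1 * h li.2
  let Y : Submodule ℂ (MvPolynomial ι ℂ) :=
    (Submodule.span ℂ (Set.range fun o => π (gens o))).comap π
  have Yg : ∀ o, gens o ∈ Y := fun o => Submodule.subset_span ⟨o, rfl⟩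
  have Y4 : ∀ p ∈ m ^ 4, p ∈ Y := fun p hp => by
    change π p ∈ Submodule.span ℂ _
    rw [hπ p hp]; exact Submodule.zero_mem _
  have hY : ∀ r, ∀ p ∈ Zalg m h hh, Θ (X r) * p ∈ Y := by
    intro r p hp
    refine mul_mem_Y m X h hh Y Y4 (fun i => Yg (Sum.inr (Sum.inl i)))
      (fun l i => Yg (Sum.inr (Sum.inr (l, i)))) _ (Yg (Sum.inl r)) (x r) (fun l => κ l r) ?_ hp
    change Θ (X r) - _ - _ ∈ _
    rw [hΘ, aeval_X, add_sub_cancel_left]
    exact hv r
  have hZ : ∀ j, Θ (Qd (a j) X) ∈ Zalg m h hh := by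
    intro j
    refine ⟨Qd (a j) x, ∑ i, E j i • h i, Submodule.sum_mem _ fun i _ =>
      Submodule.smul_mem _ _ (Submodule.subset_span ⟨i, rfl⟩), ?_⟩
    rw [hΘ, aeval_Qd]
    exact hQ j
  have hlin : ∀ p : σ → ℂ, Θ (∑ r, p r • X r) - algebraMap ℂ _ (∑ r, p r * x r) -
      ∑ l, (∑ r, p r * κ l r) • X l ∈ m ^ 2 := by
    intro p
    have : Θ (∑ r, p r • X r) - algebraMap ℂ _ (∑ r, p r * x r) -
        ∑ l, (∑ r, p r * κ l r) • (X l : MvPolynomial ι ℂ) =
        ∑ r, p r • (v r - ∑ l, κ l r • X l) := by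
      have e1 : ∑ l, (∑ r, p r * κ l r) • (X l : MvPolynomial ι ℂ) =
          ∑ r, p r • ∑ l, κ l r • X l := by
        simp only [Finset.sum_smul, Finset.smul_sum, smul_smul]
        rw [Finset.sum_comm]
      rw [e1, map_sum, map_sum, ← Finset.sum_sub_distrib, ← Finset.sum_sub_distrib]
      refine Finset.sum_congr rfl fun r _ => ?_
      rw [map_smul, hΘ, aeval_X, map_mul]
      simp only [Algebra.smul_def]
      ring
    rw [this]
    exact Ideal.sum_mem _ fun r _ => smul_mem_ideal _ _ (hv r)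
  set lam : MvPolynomial σ ℂ := ∑ r, P none r • X r with hlam
  set mu : ι → MvPolynomial σ ℂ := fun l => ∑ r, P (some l) r • X r with hmu
  have h1 : Θ lam - 1 ∈ m := by
    have := hlin (P none)
    have e1 := hP none none
    have e2 : ∀ l, ∑ r, P none r * κ l r = 0 := fun l => by simpa using hP none (some l)
    simp only [Option.casesOn'_none, if_true] at e1
    simp only [e1, e2, zero_smul, Finset.sum_const_zero, sub_zero, map_one] at this
    exact Ideal.pow_le_self (by norm_num) this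
  have h2 : ∀ l, Θ (mu l) - X l ∈ m ^ 2 := by
    intro l
    have := hlin (P (some l))
    have e1 : ∑ r, P (some l) r * x r = 0 := by simpa using hP (some l) none
    have e2 : ∀ l', ∑ r, P (some l) r * κ l' r = if l = l' then 1 else 0 := fun l' => by
      simpa using hP (some l) (some l')
    simp only [e1, e2, map_zero, sub_zero, ite_smul, one_smul, zero_smul, Finset.sum_ite_eq,
      Finset.mem_univ, if_true] at this
    exact this
  have h3 : ∀ S : T, Pi.single S (1 : ℂ) ∈ Submodule.span ℂ (Set.range fun o => π (gens o)) := by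
    intro S
    set g := lam ^ (2 * k - 2) * ∏ l ∈ S.1, mu l with hg
    have hgh : g.IsHomogeneous (2 * k + 1) := by
      have b1 := (lin_isHomog (P none)).pow (2 * k - 2)
      have b2 := IsHomogeneous.prod S.1 mu (fun _ => 1) (fun l _ => lin_isHomog (P (some l)))
      have b3 := b1.mul b2
      rw [Finset.sum_const, S.2] at b3
      have : 1 * (2 * k - 2) + 3 • 1 = 2 * k + 1 := by rw [smul_eq_mul]; omega
      rw [this] at b3
      exact b3
    have hgY := image_mem_Y _ 2 k (fun j => Qd_isHomog (a j)) Θ _ hZ Y hY g hgh (hcon g hgh)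
    obtain ⟨c1, c2⟩ := prod_congr_mod m (fun l => Θ (mu l)) X hz h2 S.1
    rw [S.2] at c1 c2
    have c3 : ∏ l ∈ S.1, Θ (mu l) ∈ m ^ 3 := by
      have := Ideal.add_mem _ (Ideal.pow_le_pow_right (by norm_num : 3 ≤ 3 + 1) c2) c1
      rwa [sub_add_cancel] at this
    have c4 : Θ lam ^ (2 * k - 2) - 1 ∈ m ^ 1 := by
      rw [pow_one]
      have := sub_dvd_pow_sub_pow (Θ lam) 1 (2 * k - 2)
      rw [one_pow] at this
      exact Ideal.mem_of_dvd _ this h1
    have c5 : Θ g - ∏ l ∈ S.1, X l ∈ m ^ 4 := by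
      have : Θ g - ∏ l ∈ S.1, X l = (Θ lam ^ (2 * k - 2) - 1) * ∏ l ∈ S.1, Θ (mu l) +
          (∏ l ∈ S.1, Θ (mu l) - ∏ l ∈ S.1, X l) := by
        rw [hg, map_mul, map_pow, map_prod]; ring
      rw [this]
      exact Ideal.add_mem _ (mul_mem_pow_add m c4 c3) c2
    have c6 : π (Θ g) = Pi.single S 1 := by
      have := hπ _ c5
      rw [map_sub, sub_eq_zero] at this
      rw [this]
      funext S'
      have e : ∏ l ∈ S.1, (X l : MvPolynomial ι ℂ) = monomial (ex S.1) 1 := by
        rw [ex, monomial_sum_one]; rfl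
      rw [e]
      simp only [π, LinearMap.pi_apply, lcoeff_apply, coeff_monomial, Pi.single_apply]
      by_cases hS : S' = S
      · rw [if_pos hS, hS, if_pos rfl]
      · rw [if_neg hS, if_neg]
        intro h'
        exact hS (Subtype.ext (ex_inj h').symm)
    rw [← c6]
    exact hgY
  have htop : Submodule.span ℂ (Set.range fun o => π (gens o)) = ⊤ := by
    rw [eq_top_iff, ← (Pi.basisFun ℂ T).span_eq, Submodule.span_le]
    rintro _ ⟨S, rfl⟩
    rw [Pi.basisFun_apply]
    exact h3 S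
  have hfin := finrank_range_le_card (R := ℂ) (fun o => π (gens o))
  rw [Set.finrank, htop, finrank_top, Module.finrank_fintype_fun_eq_card] at hfin
  have hT : Fintype.card T = (Fintype.card ι).choose 3 := Fintype.card_finset_len 3
  simp only [Fintype.card_sum, Fintype.card_prod] at hfin
  omega

end Pool.Agent.H.MP_c355a0_ag
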