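import Mathlib
import Pool.Agent.H.MP_c355a0_ag.D

namespace Pool.Agent.H.MP_c355a0_ag

open MvPolynomial Pointwise

theorem exists_Qd {σ : Type} [Fintype σ] (f : MvPolynomial σ ℂ) (hf : f.IsHomogeneous 2) :
    ∃ a : σ → σ → ℂ, f = Qd a X := by
  have h1 : f ∈ homogeneousSubmodule σ ℂ 2 := hf
  rw [← homogeneousSubmodule_one_pow, homogeneousSubmodule_one_eq_span_X, pow_two,
    Submodule.span_mul_span] at h1
  have h2 : f ∈ Submodule.span ℂ (Set.range fun rs : σ × σ =>
      (X rs.1 * X rs.2 : MvPolynomial σ ℂ)) := by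
    refine Submodule.span_mono ?_ h1
    rintro _ ⟨_, ⟨r, rfl⟩, _, ⟨s, rfl⟩, rfl⟩
    exact ⟨(r, s), rfl⟩
  obtain ⟨c, hc⟩ := (Submodule.mem_span_range_iff_exists_fun ℂ).mp h2
  refine ⟨fun r s => c (r, s), ?_⟩
  rw [← hc, Fintype.sum_prod_type]
  rfl

theorem choose_two_ge (q : ℕ) (hq : 17 ≤ q) : 4 * q + 7 ≤ q.choose 2 := by
  induction q, hq using Nat.le_induction with
  | base => decide
  | succ q hq ih =>
    have : (q + 1).choose 2 = q.choose 1 + q.choose 2 := Nat.choose_succ_succ q 1
    rw [Nat.choose_one_right] at this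
    omega

theorem choose_three_gt (q : ℕ) (hq : 17 ≤ q) :
    (q + 1) * (q + 2) + ((q + 1) + q * (q + 1)) < q.choose 3 := by
  induction q, hq using Nat.le_induction with
  | base => decide
  | succ q hq ih =>
    rw [Nat.choose_succ_succ]
    have := choose_two_ge q hq
    simp only [Nat.succ_eq_add_one] at *
    nlinarith

theorem exists_q (n : ℕ) (hn : 307 ≤ n) :
    ∃ q, 17 ≤ q ∧ (q + 1) * q < n ∧ n ≤ (q + 1) * (q + 2) := by
  induction n, hn using Nat.le_induction with
  | base => exact ⟨17, by norm_num, by norm_num, by norm_num⟩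
  | succ n hn ih =>
    obtain ⟨q, h1, h2, h3⟩ := ih
    by_cases h : n + 1 ≤ (q + 1) * (q + 2)
    · exact ⟨q, h1, by omega, h⟩
    · exact ⟨q + 1, by omega, by nlinarith, by nlinarith⟩

theorem exists_not_mem (n : ℕ) (hn : 307 ≤ n) (k : ℕ) (hk : 1 ≤ k)
    (f : Fin (n + 1) → MvPolynomial (Fin n) ℂ) (hf : ∀ j, (f j).IsHomogeneous 2) :
    ∃ g : MvPolynomial (Fin n) ℂ, g.IsHomogeneous (2 * k + 1) ∧
      g ∉ Ideal.span (Set.range f) ^ k := by
  classical
  choose a ha using fun j => exists_Qd (f j) (hf j)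
  obtain ⟨q, hq1, hq2, hq3⟩ := exists_q n hn
  have hqn : q ≤ n := by nlinarith
  let Jl : (Fin n → ℂ) →ₗ[ℂ] Matrix (Fin (n + 1)) (Fin n) ℂ :=
    { toFun := fun x => Matrix.of fun j r => ∑ s, (a j r s + a j s r) * x s
      map_add' := fun x y => by
        ext j r; simp [mul_add, Finset.sum_add_distrib]
      map_smul' := fun c x => by
        ext j r; simp [Finset.mul_sum, mul_left_comm] }
  let e1 : Fin (n + 1) ≃ Fin (n - q) ⊕ Fin (q + 1) := Fintype.equivOfCardEq (by simp; omega)
  let e2 : Fin n ≃ Fin (n - q) ⊕ Fin q := Fintype.equivOfCardEq (by simp; omega)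
  obtain ⟨x, hx0, hx⟩ := exists_low_rank
    ((Matrix.reindexLinearEquiv ℂ ℂ e1 e2).toLinearMap ∘ₗ Jl) (by simpa using hq2)
  have hrank : (Jl x).rank ≤ n - q := by
    have : ((Matrix.reindexLinearEquiv ℂ ℂ e1 e2).toLinearMap ∘ₗ Jl) x =
        (Jl x).reindex e1 e2 := rfl
    rw [this, Matrix.rank_reindex, Fintype.card_fin] at hx
    exact hx
  set J := Jl x with hJdef
  have hJ : ∀ j r, J j r = ∑ s, (a j r s + a j s r) * x s := fun j r => rfl
  by_cases hc : ∀ j, Qd (a j) x = 0
  · obtain ⟨r, hr⟩ := Function.ne_iff.mp hx0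
    refine ⟨X r ^ (2 * k + 1), isHomogeneous_X_pow r _, fun hmem => ?_⟩
    have h1 : Ideal.span (Set.range f) ≤ RingHom.ker (aeval x : MvPolynomial (Fin n) ℂ →ₐ[ℂ] ℂ) := by
      rw [Ideal.span_le]
      rintro _ ⟨j, rfl⟩
      rw [SetLike.mem_coe, RingHom.mem_ker, ha j, aeval_Qd, hc j]
    have h2 := h1 (Ideal.pow_le_self (by omega) hmem)
    rw [RingHom.mem_ker, map_pow, aeval_X] at h2
    exact hr (pow_eq_zero_iff (by omega) |>.mp h2)
  · set K := LinearMap.ker J.mulVecLin with hK
    let b := Module.finBasis ℂ K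
    let κ : Fin (Module.finrank ℂ K) → Fin n → ℂ := fun l => (b l : Fin n → ℂ)
    have hκ : ∀ l j, ∑ r, J j r * κ l r = 0 := fun l j => congrFun (b l).2 j
    have hdim : J.rank + Module.finrank ℂ K = n := by
      have := LinearMap.finrank_range_add_finrank_ker J.mulVecLin
      rw [Module.finrank_fintype_fun_eq_card, Fintype.card_fin] at this
      exact this
    obtain ⟨c, G, E, H, hcr, hG⟩ := exists_GEH J
    have hli0 : LinearIndependent ℂ κ :=
      b.linearIndependent.map' K.subtype (Submodule.ker_subtype _)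
    have hxK : x ∉ Submodule.span ℂ (Set.range κ) := by
      intro hmem
      have h1 : Submodule.span ℂ (Set.range κ) ≤ K := by
        rw [Submodule.span_le]
        rintro _ ⟨l, rfl⟩
        exact (b l).2
      have h2 := h1 hmem
      apply hc
      intro j
      have h3 : ∑ r, J j r * x r = 0 := congrFun h2 j
      have h4 : ∑ r, J j r * x r = Qd (a j) x + Qd (a j) x := by
        simp only [hJ, Qd, Finset.sum_mul, add_mul, Finset.sum_add_distrib, smul_eq_mul]
        congr 1
        · exact Finset.sum_congr rfl fun r _ => Finset.sum_congr rfl fun s _ => by ring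
        · rw [Finset.sum_comm]
          exact Finset.sum_congr rfl fun r _ => Finset.sum_congr rfl fun s _ => by ring
      rw [h4] at h3
      exact add_self_eq_zero.mp h3
    have hli := hli0.option hxK
    have hff : f = fun j => Qd (a j) X := funext ha
    rw [hff]
    refine main_core a x κ J hJ hκ G E H hG hli ?_ k hk
    simp only [Fintype.card_fin] at hcr ⊢
    set q' := Module.finrank ℂ K with hq'
    have h5 : q ≤ q' := by omega
    have h6 : c = q' + 1 := by omega
    have h7 := choose_three_gt q' (by omega)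
    have h8 : (q + 1) * (q + 2) ≤ (q' + 1) * (q' + 2) := Nat.mul_le_mul (by omega) (by omega)
    rw [h6]
    omega

end Pool.Agent.H.MP_c355a0_ag
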